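import Mathlib

set_option autoImplicit false

/-!
Canonical completion of a partial bijection (given as a relation): chains are closed up.
-/

namespace Pool.Agent.Lib.MP_836f52_al_H7

open Relation

universe u

variable {α : Type u}

/-- The completion of a partial bijection `R`: `x` is sent to its image if it has one, and
otherwise to the start of the chain that ends at `x`. -/
def Compl (R : α → α → Prop) (x y : α) : Prop :=
  R x y ∨ ((∀ z, ¬ R x z) ∧ (∀ z, ¬ R z y) ∧ ReflTransGen R y x)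

lemma compl_swap (R : α → α → Prop) (x y : α) :
    Compl (Function.swap R) y x ↔ Compl R x y := by
  unfold Compl
  rw [Relation.reflTransGen_swap]
  simp only [Function.swap]
  tauto

lemma compl_of_rel {R : α → α → Prop} {x y : α} (h : R x y) : Compl R x y := Or.inl h

/-- transport of the completion along a permutation -/
lemma compl_map {β : Type u} (τ : α ≃ β) {R : α → α → Prop} {R' : β → β → Prop}
    (h : ∀ x y, R x y ↔ R' (τ x) (τ y)) (x y : α) :
    Compl R x y ↔ Compl R' (τ x) (τ y) := by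
  have key : ∀ x y, ReflTransGen R x y ↔ ReflTransGen R' (τ x) (τ y) := by
    intro x y
    constructor
    · intro hxy
      exact ReflTransGen.lift τ (fun a b hab => (h a b).1 hab) _ _ hxy
    · intro hxy
      have := ReflTransGen.lift (p := R) τ.symm
        (fun a b hab => (h _ _).2 (by simpa using hab)) _ _ hxy
      simpa [Function.onFun] using this
  unfold Compl
  rw [← h, ← key]
  have h1 : (∀ z, ¬ R x z) ↔ (∀ z, ¬ R' (τ x) z) := by
    constructor
    · intro H z hz
      exact H (τ.symm z) ((h _ _).2 (by simpa using hz))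
    · intro H z hz
      exact H (τ z) ((h _ _).1 hz)
  have h2 : (∀ z, ¬ R z y) ↔ (∀ z, ¬ R' z (τ y)) := by
    constructor
    · intro H z hz
      exact H (τ.symm z) ((h _ _).2 (by simpa using hz))
    · intro H z hz
      exact H (τ z) ((h _ _).1 hz)
  rw [h1, h2]

lemma compl_existsUnique {R : α → α → Prop}
    (hf : ∀ x y y', R x y → R x y' → y = y')
    (hi : ∀ x x' y, R x y → R x' y → x = x')
    (hfin : ∀ x, (∀ z, ¬ R x z) → ∃ y, (∀ z, ¬ R z y) ∧ ReflTransGen R y x) (x : α) :
    ∃! y, Compl R x y := by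
  by_cases hx : ∃ z, R x z
  · obtain ⟨z, hz⟩ := hx
    refine ⟨z, Or.inl hz, ?_⟩
    rintro y (hy | ⟨hy, -, -⟩)
    · exact hf _ _ _ hy hz
    · exact absurd hz (hy z)
  · push Not at hx
    obtain ⟨y, hy, hyx⟩ := hfin x hx
    refine ⟨y, Or.inr ⟨hx, hy, hyx⟩, ?_⟩
    rintro y' (hy' | ⟨-, hy', hy'x⟩)
    · exact absurd hy' (hx y')
    · have hyx' := (Relation.reflTransGen_swap (r := R)).2 hyx
      have hy'x' := (Relation.reflTransGen_swap (r := R)).2 hy'x
      have hu : Relator.RightUnique (Function.swap R) := by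
        intro a b c hab hac
        exact hi _ _ _ hab hac
      rcases Relation.ReflTransGen.total_of_right_unique hu hyx' hy'x' with h | h
      · rcases Relation.ReflTransGen.cases_head h with h | ⟨c, hc, -⟩
        · exact h.symm
        · exact absurd hc (hy c)
      · rcases Relation.ReflTransGen.cases_head h with h | ⟨c, hc, -⟩
        · exact h
        · exact absurd hc (hy' c)

/-- `Reach R k y x`: there is an `R`-chain of length `k` from `y` to `x`. -/
def Reach (R : α → α → Prop) : ℕ → α → α → Prop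
  | 0, y, x => y = x
  | k + 1, y, x => ∃ z, R y z ∧ Reach R k z x

lemma reach_toGen {R : α → α → Prop} : ∀ (k : ℕ) (y x : α), Reach R k y x → ReflTransGen R y x
  | 0, y, x, h => by
      have : y = x := h
      rw [this]
  | k + 1, y, x, ⟨z, hz, h⟩ => ReflTransGen.head hz (reach_toGen k z x h)

lemma reach_map {β : Type u} (τ : α → β) {R : α → α → Prop} {R' : β → β → Prop}
    (h : ∀ x y, R x y → R' (τ x) (τ y)) : ∀ (k : ℕ) (y x : α), Reach R k y x →
      Reach R' k (τ y) (τ x)
  | 0, y, x, hk => by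
      have : y = x := hk
      subst this
      rfl
  | k + 1, y, x, ⟨z, hz, hk⟩ => ⟨τ z, h _ _ hz, reach_map τ h k z x hk⟩

lemma reach_det {R : α → α → Prop} (hf : ∀ x y y', R x y → R x y' → y = y') :
    ∀ (i j : ℕ) (y z x : α), Reach R i y z → Reach R j y x → i < j → ∃ w, R z w
  | 0, 0, _, _, _, _, _, h => absurd h (lt_irrefl _)
  | 0, j + 1, y, z, x, hi, ⟨w, hw, _⟩, _ => by
      have : y = z := hi
      subst this
      exact ⟨w, hw⟩
  | i + 1, 0, _, _, _, _, _, h => absurd h (by omega)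
  | i + 1, j + 1, y, z, x, ⟨w, hw, hi⟩, ⟨w', hw', hj⟩, h => by
      have : w = w' := hf _ _ _ hw hw'
      subst this
      exact reach_det hf i j w z x hi hj (by omega)

/-- Chains are finite when the relation is invariant under enough permutations. -/
lemma chain_finite {F : Type*} [Finite F] {R : α → α → Prop}
    (hf : ∀ x y y', R x y → R x y' → y = y')
    (o : α → F)
    (ho : ∀ x y, o x = o y → ∃ τ : Equiv.Perm α, (∀ a b, R a b ↔ R (τ a) (τ b)) ∧ y = τ x)
    (x : α) (hx : ∀ z, ¬ R x z) : ∃ y, (∀ z, ¬ R z y) ∧ ReflTransGen R y x := by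
  by_contra hcon
  push Not at hcon
  have hex : ∀ k : ℕ, ∃ y, Reach R k y x := by
    intro k
    induction k with
    | zero => exact ⟨x, rfl⟩
    | succ k ih =>
      obtain ⟨y, hy⟩ := ih
      have h1 := reach_toGen k y x hy
      by_cases h2 : ∃ z, R z y
      · obtain ⟨z, hz⟩ := h2
        exact ⟨z, y, hz, hy⟩
      · push Not at h2
        exact absurd h1 (hcon y h2)
  choose y hy using hex
  obtain ⟨i, j, hij, hoij⟩ := Finite.exists_ne_map_eq_of_infinite (fun k : ℕ => o (y k))
  have aux : ∀ i j : ℕ, i < j → o (y i) = o (y j) → False := by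
    intro i j hij hoij
    obtain ⟨τ, hτ, hyj⟩ := ho _ _ hoij
    have h1 : Reach R i (τ (y i)) (τ x) :=
      reach_map τ (fun a b hab => (hτ a b).1 hab) i _ _ (hy i)
    rw [← hyj] at h1
    obtain ⟨w, hw⟩ := reach_det hf i j (y j) (τ x) x h1 (hy j) hij
    have h2 : R x (τ.symm w) := (hτ _ _).2 (by simpa using hw)
    exact hx _ h2
  rcases lt_or_gt_of_ne hij with h | h
  · exact aux i j h hoij
  · exact aux j i h hoij.symm

/-- The completed permutation. -/
noncomputable def complPerm (R : α → α → Prop)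
    (h1 : ∀ x, ∃! y, Compl R x y) (h2 : ∀ y, ∃! x, Compl R x y) : Equiv.Perm α where
  toFun x := (h1 x).choose
  invFun y := (h2 y).choose
  left_inv x := ((h2 _).choose_spec.2 x (h1 x).choose_spec.1).symm
  right_inv y := ((h1 _).choose_spec.2 y (h2 y).choose_spec.1).symm

lemma complPerm_spec (R : α → α → Prop)
    (h1 : ∀ x, ∃! y, Compl R x y) (h2 : ∀ y, ∃! x, Compl R x y) (x : α) :
    Compl R x (complPerm R h1 h2 x) := (h1 x).choose_spec.1

lemma complPerm_eq_iff (R : α → α → Prop)
    (h1 : ∀ x, ∃! y, Compl R x y) (h2 : ∀ y, ∃! x, Compl R x y) (x y : α) :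
    complPerm R h1 h2 x = y ↔ Compl R x y := by
  constructor
  · rintro rfl
    exact complPerm_spec R h1 h2 x
  · intro h
    exact ((h1 x).choose_spec.2 y h).symm

/-- Strong commutation of two partial bijections: any corner of a square can be completed. -/
structure StrongComm (R S : α → α → Prop) : Prop where
  c1 : ∀ x y z, R x y → S x z → ∃ w, S y w ∧ R z w
  c2 : ∀ x y w, R x y → S y w → ∃ z, S x z ∧ R z w
  c3 : ∀ x z w, S x z → R z w → ∃ y, R x y ∧ S y w
  c4 : ∀ y z w, S y w → R z w → ∃ x, R x y ∧ S x z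

lemma StrongComm.swap_right {R S : α → α → Prop} (h : StrongComm R S) :
    StrongComm R (Function.swap S) where
  c1 x y z hxy hxz := by
    -- `R x y`, `S z x`
    obtain ⟨w, hw1, hw2⟩ := h.c3 z x y hxz hxy
    exact ⟨w, hw2, hw1⟩
  c2 x y w hxy hyw := by
    -- `R x y`, `S w y`
    obtain ⟨z, hz1, hz2⟩ := h.c4 w x y hyw hxy
    exact ⟨z, hz2, hz1⟩
  c3 x z w hxz hzw := by
    -- `S z x`, `R z w`
    obtain ⟨y, hy1, hy2⟩ := h.c1 z w x hzw hxz
    exact ⟨y, hy2, hy1⟩
  c4 y z w hyw hzw := by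
    -- `S w y`, `R z w`
    obtain ⟨x, hx1, hx2⟩ := h.c2 z w y hzw hyw
    exact ⟨x, hx2, hx1⟩

lemma StrongComm.swap_left {R S : α → α → Prop} (h : StrongComm R S) :
    StrongComm (Function.swap R) S where
  c1 x y z hxy hxz := by
    -- `R y x`, `S x z`
    obtain ⟨w, hw1, hw2⟩ := h.c2 y x z hxy hxz
    exact ⟨w, hw1, hw2⟩
  c2 x y w hxy hyw := by
    -- `R y x`, `S y w`
    obtain ⟨z, hz1, hz2⟩ := h.c1 y x w hxy hyw
    exact ⟨z, hz1, hz2⟩
  c3 x z w hxz hzw := by
    -- `S x z`, `R w z`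
    obtain ⟨y, hy1, hy2⟩ := h.c4 x w z hxz hzw
    exact ⟨y, hy1, hy2⟩
  c4 y z w hyw hzw := by
    -- `S y w`, `R w z`
    obtain ⟨x, hx1, hx2⟩ := h.c3 y w z hyw hzw
    exact ⟨x, hx1, hx2⟩

/-- `S`-edges move `R`-completions. -/
lemma StrongComm.move {R S : α → α → Prop} (h : StrongComm R S) {x y x' : α}
    (hxy : Compl R x y) (hxx' : S x x') : ∃ y', S y y' ∧ Compl R x' y' := by
  rcases hxy with hxy | ⟨hx, hy, hyx⟩
  · obtain ⟨w, hw1, hw2⟩ := h.c1 x y x' hxy hxx'
    exact ⟨w, hw1, Or.inl hw2⟩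
  · have hx' : ∀ z, ¬ R x' z := by
      intro z hz
      obtain ⟨s, hs1, -⟩ := h.c3 x x' z hxx' hz
      exact hx s hs1
    have main : ∀ p, ReflTransGen R p x → ∃ p', S p p' ∧ ReflTransGen R p' x' := by
      intro p hp
      induction hp using ReflTransGen.head_induction_on with
      | refl => exact ⟨x', hxx', ReflTransGen.refl⟩
      | head hpq _ ih =>
        obtain ⟨q', hq', hgen⟩ := ih
        obtain ⟨p', hp1, hp2⟩ := h.c2 _ _ _ hpq hq'
        exact ⟨p', hp1, ReflTransGen.head hp2 hgen⟩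
    obtain ⟨y', hy', hgen⟩ := main y hyx
    refine ⟨y', hy', Or.inr ⟨hx', ?_, hgen⟩⟩
    intro t ht
    obtain ⟨s, hs1, -⟩ := h.c4 y t y' hy' ht
    exact hy s hs1

/-- Completions of strongly commuting partial bijections commute. -/
lemma StrongComm.compl_comm {R S : α → α → Prop} (h : StrongComm R S) {x y z : α}
    (hxy : Compl R x y) (hxz : Compl S x z) : ∃ w, Compl S y w ∧ Compl R z w := by
  rcases hxz with hxz | ⟨hx, hz, hzx⟩
  · obtain ⟨w, hw1, hw2⟩ := h.move hxy hxz
    exact ⟨w, Or.inl hw1, hw2⟩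
  · have main : ∀ p, ReflTransGen S p x → ∃ w, ReflTransGen S w y ∧ Compl R p w := by
      intro p hp
      induction hp using ReflTransGen.head_induction_on with
      | refl => exact ⟨y, ReflTransGen.refl, hxy⟩
      | head hpq _ ih =>
        obtain ⟨w, hw1, hw2⟩ := ih
        obtain ⟨w', hw'1, hw'2⟩ := h.swap_right.move hw2 hpq
        exact ⟨w', ReflTransGen.head hw'1 hw1, hw'2⟩
    obtain ⟨w, hw1, hw2⟩ := main z hzx
    refine ⟨w, Or.inr ⟨?_, ?_, hw1⟩, hw2⟩
    · intro t ht
      obtain ⟨s, hs1, -⟩ := h.swap_left.move ((compl_swap R x y).2 hxy) ht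
      exact hx s hs1
    · intro t ht
      obtain ⟨s, hs1, -⟩ := h.swap_left.swap_right.move ((compl_swap R z w).2 hw2) ht
      exact hz s hs1

end Pool.Agent.Lib.MP_836f52_al_H7
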