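import Mathlib

set_option autoImplicit false

/-!
Definitions for problem MP_836f52_al.
-/

namespace Pool.Agent.Lib.MP_836f52_al_H7

/-- A subgroup `H` of a group `G` is a *virtual retract* of `G` if there are a subgroup `K` of
finite index in `G` that contains `H` and a homomorphism `ρ : K → H` with `ρ h = h` for every
`h` in `H`. -/
def IsVirtualRetract {G : Type*} [Group G] (H : Subgroup G) : Prop :=
  ∃ K : Subgroup G, K.FiniteIndex ∧ H ≤ K ∧
    ∃ ρ : K →* H, ∀ (k : K) (hk : (k : G) ∈ H), ρ k = ⟨(k : G), hk⟩

/-- A group has *property (LR)* if every finitely generated subgroup is a virtual retract. -/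
def HasLR (G : Type*) [Group G] : Prop :=
  ∀ H : Subgroup G, H.FG → IsVirtualRetract H

end Pool.Agent.Lib.MP_836f52_al_H7
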