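import Mathlib

set_option autoImplicit false

/-!
Median graphs and path systems.
-/

namespace Pool.Agent.Lib.MP_836f52_al_H7

universe u v

variable {V : Type u}

/-- A simple graph is a *median graph* if it is connected and any three vertices `a, b, c` have
exactly one median, that is, a vertex lying on shortest paths between any two of them.
(Median graphs are the 1-skeleta of CAT(0) cube complexes; every tree is a median graph.) -/
def IsMedian (X : SimpleGraph V) : Prop :=
  X.Connected ∧ ∀ a b c : V, ∃! m : V,
    X.dist a m + X.dist m b = X.dist a b ∧ X.dist b m + X.dist m c = X.dist b c ∧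
      X.dist a m + X.dist m c = X.dist a c

/-- The halfspace of an ordered pair of adjacent vertices `(x, y)`: the vertices that are closer
to `y` than to `x`. -/
def halfspace (X : SimpleGraph V) (x y : V) : Set V := {z | X.dist z y < X.dist z x}

/-- A set of vertices is *convex* if it contains every vertex that lies on a shortest path
between two of its members. -/
def IsConvex (X : SimpleGraph V) (W : Set V) : Prop :=
  ∀ x ∈ W, ∀ y ∈ W, ∀ z : V, X.dist x z + X.dist z y = X.dist x y → z ∈ W

section

variable {X : SimpleGraph V}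

lemma IsMedian.dist_ne (hX : IsMedian X) {x y : V} (h : X.Adj x y) (w : V) :
    X.dist w x ≠ X.dist w y := by
  intro heq
  obtain ⟨m, ⟨h1, h2, h3⟩, -⟩ := hX.2 w x y
  have hxy : X.dist x y = 1 := SimpleGraph.dist_eq_one_iff_adj.2 h
  have hc := hX.1
  rw [hxy] at h2
  have : X.dist x m = 0 ∨ X.dist m y = 0 := by omega
  rcases this with h0 | h0
  · have : x = m := (hc.dist_eq_zero_iff).1 h0
    subst this
    omega
  · have : m = y := (hc.dist_eq_zero_iff).1 h0
    subst this
    have := X.dist_comm (u := m) (v := x)
    omega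

lemma IsMedian.dist_adj (hX : IsMedian X) {x y : V} (h : X.Adj x y) (w : V) :
    X.dist w y = X.dist w x + 1 ∨ X.dist w x = X.dist w y + 1 := by
  have h1 := hX.dist_ne h w
  have hxy : X.dist x y = 1 := SimpleGraph.dist_eq_one_iff_adj.2 h
  have t1 := hX.1.dist_triangle (u := w) (v := x) (w := y)
  have t2 := hX.1.dist_triangle (u := w) (v := y) (w := x)
  have := X.dist_comm (u := x) (v := y)
  omega

lemma IsMedian.dist_two (hX : IsMedian X) {x y z : V} (h1 : X.Adj x y) (h2 : X.Adj y z)
    (hne : x ≠ z) : X.dist x z = 2 := by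
  have e1 : X.dist x y = 1 := SimpleGraph.dist_eq_one_iff_adj.2 h1
  rcases hX.dist_adj h2 x with h | h
  · omega
  · have : X.dist x z = 0 := by omega
    exact absurd (hX.1.dist_eq_zero_iff.1 this) hne

/-- quadrangle condition -/
lemma IsMedian.quadrangle (hX : IsMedian X) {o v y y' : V} (h1 : X.Adj y v) (h2 : X.Adj y' v)
    (hne : y ≠ y') (e1 : X.dist o v = X.dist o y + 1) (e2 : X.dist o v = X.dist o y' + 1) :
    ∃ m, X.Adj m y ∧ X.Adj m y' ∧ X.dist o y = X.dist o m + 1 := by
  obtain ⟨m, ⟨k1, k2, k3⟩, -⟩ := hX.2 o y y'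
  have hd := hX.dist_two h1 h2.symm hne
  rw [hd] at k2
  have hc := hX.1
  have ym := X.dist_comm (u := y) (v := m)
  have hym : X.dist y m = 1 := by
    rcases Nat.lt_or_ge (X.dist y m) 1 with h | h
    · have : X.dist y m = 0 := by omega
      have := (hc.dist_eq_zero_iff).1 this
      subst this
      omega
    · by_contra hcon
      have : X.dist m y' = 0 := by omega
      have := (hc.dist_eq_zero_iff).1 this
      subst this
      omega
  have hmy' : X.dist m y' = 1 := by omega
  refine ⟨m, SimpleGraph.dist_eq_one_iff_adj.1 (by omega), SimpleGraph.dist_eq_one_iff_adj.1 hmy',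
    by omega⟩

/-- Opposite edges of a square define the same halfspace. -/
lemma IsMedian.halfspace_square (hX : IsMedian X) {x y z w : V} (hxy : X.Adj x y)
    (hyz : X.Adj y z) (hzw : X.Adj z w) (hwx : X.Adj w x) (hxz : x ≠ z) (hyw : y ≠ w) :
    halfspace X x y = halfspace X w z := by
  have main : ∀ {x y z w : V}, X.Adj x y → X.Adj y z → X.Adj z w → X.Adj w x → x ≠ z → y ≠ w →
      halfspace X x y ⊆ halfspace X w z := by
    intro x y z w hxy hyz hzw hwx hxz hyw u hu
    simp only [halfspace, Set.mem_ofPred_eq] at hu ⊢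
    by_contra hcon
    have a1 := hX.dist_adj hxy u
    have a2 := hX.dist_adj hyz u
    have a3 := hX.dist_adj hzw u
    have a4 := hX.dist_adj hwx u
    have hz : X.dist u z = X.dist u w + 1 := by omega
    have hxx : X.dist u x = X.dist u y + 1 := by omega
    have hxz' : X.dist u z = X.dist u x := by omega
    have d1 := hX.dist_two hxy hyz hxz
    have d2 : X.dist x y = 1 := SimpleGraph.dist_eq_one_iff_adj.2 hxy
    have d3 : X.dist y z = 1 := SimpleGraph.dist_eq_one_iff_adj.2 hyz
    have d4 : X.dist z w = 1 := SimpleGraph.dist_eq_one_iff_adj.2 hzw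
    have d5 : X.dist w x = 1 := SimpleGraph.dist_eq_one_iff_adj.2 hwx
    have c2 := X.dist_comm (u := x) (v := y)
    have c4 := X.dist_comm (u := z) (v := w)
    have c5 := X.dist_comm (u := w) (v := x)
    obtain ⟨m, -, hm⟩ := hX.2 u x z
    have m1 := hm y ⟨by omega, by omega, by omega⟩
    have m2 := hm w ⟨by omega, by omega, by omega⟩
    exact hyw (m1.trans m2.symm)
  apply Set.Subset.antisymm
  · exact main hxy hyz hzw hwx hxz hyw
  · exact main hzw.symm hyz.symm hxy.symm hwx.symm hyw.symm hxz.symm

lemma IsMedian.halfspace_compl (hX : IsMedian X) {x y : V} (hxy : X.Adj x y) :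
    halfspace X y x = (halfspace X x y)ᶜ := by
  ext z
  simp only [halfspace, Set.mem_ofPred_eq, Set.mem_compl_iff]
  have := hX.dist_adj hxy z
  omega

end

end Pool.Agent.Lib.MP_836f52_al_H7
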