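import Pool.Agent.Lib.MP_836f52_al_H7.Defs

set_option autoImplicit false

/-!
The abstract construction of a virtual retraction from a system of path permutations.
-/

namespace Pool.Agent.Lib.MP_836f52_al_H7

universe u v w

/-- Abstract retraction theorem.  `N` is a normal subgroup of finite index, `P` is a family of
permutations of `W` indexed by pairs of vertices. -/
theorem virtualRetract_of_system {G : Type u} [Group G] {V : Type v} [MulAction G V]
    {W : Type w} (N : Subgroup G) [N.Normal] [N.FiniteIndex] (H : Subgroup G)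
    (a : H →* Equiv.Perm W) (P : V → V → Equiv.Perm W) (v0 : V) (w0 : W)
    (hPid : ∀ u, P u u = 1)
    (hPcomp : ∀ u v w, P v w * P u v = P u w)
    (hPN : ∀ n ∈ N, ∀ u v : V, P (n • u) (n • v) = P u v)
    (hPH : ∀ (h : H) (u v : V), P ((h : G) • u) ((h : G) • v) = a h * P u v * (a h)⁻¹)
    (hfree : ∀ m : H, (m : G) ∈ N → a m w0 = w0 → m = 1)
    (hbase : ∀ h : H, P v0 ((h : G) • v0) w0 = a h w0)
    {F : Type*} [Finite F] (o : W → F)
    (ho : ∀ x y, o x = o y → ∃ m : H, (m : G) ∈ N ∧ y = a m x) :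
    IsVirtualRetract H := by
  classical
  -- `A g` transports back from `g v0` to `v0`
  set A : G → Equiv.Perm W := fun g => P (g • v0) v0 with hA
  -- membership relation
  have hPinv : ∀ u v, (P u v)⁻¹ = P v u := by
    intro u v
    rw [inv_eq_iff_mul_eq_one, hPcomp, hPid]
  -- key formula
  have key : ∀ (g g' : G) (h : H), (h : G)⁻¹ * g ∈ N →
      A (g * g') = A g * (a h * A g' * (a h)⁻¹) := by
    intro g g' h hg
    have e1 : A (g * g') = P (g • v0) v0 * P ((g * g') • v0) (g • v0) := by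
      simp only [hA]
      rw [hPcomp]
    have hn : g * (h : G)⁻¹ ∈ N := by
      have := (inferInstance : N.Normal).conj_mem _ hg (h : G)
      have e : (h : G) * ((h : G)⁻¹ * g) * (h : G)⁻¹ = g * (h : G)⁻¹ := by group
      rwa [e] at this
    have e2 : P ((g * g') • v0) (g • v0) = P ((h : G) • (g' • v0)) ((h : G) • v0) := by
      rw [← hPN _ hn ((h : G) • (g' • v0)) ((h : G) • v0)]
      congr 1
      · simp only [← mul_smul]
        congr 1
        group
      · simp only [← mul_smul]
        congr 1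
        group
    rw [e1, e2, hPH]
  have commN : ∀ (m : H), (m : G) ∈ N → ∀ u v, P u v * a m = a m * P u v := by
    intro m hm u v
    have h1 := hPN _ hm u v
    rw [hPH] at h1
    calc P u v * a m = (a m * P u v * (a m)⁻¹) * a m := by rw [h1]
      _ = a m * P u v := by group
  have uniq : ∀ (g : G) (h h' : H), (h : G)⁻¹ * g ∈ N → (h' : G)⁻¹ * g ∈ N →
      A g (a h w0) = w0 → A g (a h' w0) = w0 → h = h' := by
    intro g h h' hg hg' e e'
    have h1 : a h w0 = a h' w0 := (A g).injective (e.trans e'.symm)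
    have h2 : a (h⁻¹ * h') w0 = w0 := by
      rw [map_mul, Equiv.Perm.mul_apply, ← h1, ← Equiv.Perm.mul_apply, ← map_mul]
      simp
    have h3 : ((h⁻¹ * h' : H) : G) ∈ N := by
      have e4 : ((h⁻¹ * h' : H) : G) = ((h : G)⁻¹ * g) * ((h' : G)⁻¹ * g)⁻¹ := by
        push_cast
        group
      rw [e4]
      exact N.mul_mem hg (N.inv_mem hg')
    have h4 := hfree _ h3 h2
    exact (inv_mul_eq_one.1 h4)
  -- the subgroup
  let L : Subgroup G :=
    { carrier := {g | ∃ h : H, (h : G)⁻¹ * g ∈ N ∧ A g (a h w0) = w0}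
      one_mem' := by
        refine ⟨1, by simp, ?_⟩
        simp [hA, hPid]
      mul_mem' := by
        rintro g g' ⟨h, hg, e⟩ ⟨h', hg', e'⟩
        refine ⟨h * h', ?_, ?_⟩
        · have e4 : ((h * h' : H) : G)⁻¹ * (g * g') =
              ((h' : G)⁻¹ * ((h : G)⁻¹ * g) * (h' : G)⁻¹⁻¹) * ((h' : G)⁻¹ * g') := by
            push_cast
            group
          rw [e4]
          exact N.mul_mem ((inferInstance : N.Normal).conj_mem _ hg _) hg'
        · rw [key g g' h hg, map_mul]
          simp only [Equiv.Perm.mul_apply, Equiv.Perm.inv_def, Equiv.symm_apply_apply]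
          rw [e', e]
      inv_mem' := by
        rintro g ⟨h, hg, e⟩
        refine ⟨h⁻¹, ?_, ?_⟩
        · have e4 : ((h⁻¹ : H) : G)⁻¹ * g⁻¹ = (h : G) * ((h : G)⁻¹ * g)⁻¹ * (h : G)⁻¹ := by
            push_cast
            group
          rw [e4]
          exact (inferInstance : N.Normal).conj_mem _ (N.inv_mem hg) _
        · have h1 := key g g⁻¹ h hg
          have h2 : A (g * g⁻¹) = 1 := by simp [hA, hPid]
          rw [h2] at h1
          have h3 : A g⁻¹ = (a h)⁻¹ * (A g)⁻¹ * a h := by
            have : A g * (a h * A g⁻¹ * (a h)⁻¹) = 1 := h1.symm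
            rw [mul_eq_one_iff_eq_inv'] at this
            rw [← inv_inj] at this
            have h5 : a h * A g⁻¹ * (a h)⁻¹ = (A g)⁻¹ := by
              rw [← inv_inj]
              simpa using this
            rw [← h5]
            group
          rw [h3, map_inv]
          simp only [Equiv.Perm.mul_apply, Equiv.Perm.inv_def, Equiv.apply_symm_apply]
          rw [Equiv.symm_apply_eq, Equiv.symm_apply_eq]
          exact e.symm }
  have hHL : H ≤ L := by
    intro h hh
    refine ⟨⟨h, hh⟩, by simp, ?_⟩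
    have h1 := hbase ⟨h, hh⟩
    simp only at h1
    rw [← h1]
    simp only [hA]
    rw [← Equiv.Perm.mul_apply, hPcomp, hPid]
    rfl
  choose ρ0 hρ1 hρ2 using (fun g : L => g.2)
  have hρ_uniq : ∀ (g : L) (h : H), (h : G)⁻¹ * (g : G) ∈ N → A (g : G) (a h w0) = w0 →
      ρ0 g = h := fun g h h1 h2 => uniq g _ _ (hρ1 g) h1 (hρ2 g) h2
  refine ⟨L, ?_, hHL, ?_⟩
  · -- finite index
    let φ : G → (G ⧸ N) × F := fun g =>
      ((g : G ⧸ N), o (A ((Quotient.out (g : G ⧸ N))⁻¹ * g) w0))
    have hφ : ∀ g g' : G, φ g = φ g' → g⁻¹ * g' ∈ L := by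
      intro g g' hgg
      have hq : (g : G ⧸ N) = (g' : G ⧸ N) := congrArg Prod.fst hgg
      have ho' := congrArg Prod.snd hgg
      simp only [φ] at ho'
      rw [← hq] at ho'
      set r := Quotient.out (g : G ⧸ N) with hr
      have hrg : r⁻¹ * g ∈ N := by
        rw [← QuotientGroup.eq]
        simp [hr]
      have hrg' : r⁻¹ * g' ∈ N := by
        rw [← QuotientGroup.eq, ← hq]
        simp [hr]
      obtain ⟨m, hm, e⟩ := ho _ _ ho'
      refine ⟨m⁻¹, ?_, ?_⟩
      · have e4 : ((m⁻¹ : H) : G)⁻¹ * (g⁻¹ * g') = (m : G) * ((r⁻¹ * g)⁻¹ * (r⁻¹ * g')) := by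
          push_cast
          group
        rw [e4]
        exact N.mul_mem hm (N.mul_mem (N.inv_mem hrg) hrg')
      · have k1 := key (r⁻¹ * g) (g⁻¹ * g') 1 (by simpa using hrg)
        have e5 : r⁻¹ * g * (g⁻¹ * g') = r⁻¹ * g' := by group
        rw [e5] at k1
        simp only [map_one, one_mul, inv_one, mul_one] at k1
        have k2 : A (r⁻¹ * g) (A (g⁻¹ * g') (a m⁻¹ w0)) = A (r⁻¹ * g) w0 := by
          rw [← Equiv.Perm.mul_apply, ← k1]
          have c1 := commN m hm ((r⁻¹ * g') • v0) v0
          have c2 : A (r⁻¹ * g') * a m = a m * A (r⁻¹ * g') := c1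
          have c3 : A (r⁻¹ * g') * a m⁻¹ = a m⁻¹ * A (r⁻¹ * g') := by
            rw [map_inv]
            calc A (r⁻¹ * g') * (a m)⁻¹ = (a m)⁻¹ * (a m * A (r⁻¹ * g')) * (a m)⁻¹ := by group
              _ = (a m)⁻¹ * (A (r⁻¹ * g') * a m) * (a m)⁻¹ := by rw [c2]
              _ = (a m)⁻¹ * A (r⁻¹ * g') := by group
          rw [← Equiv.Perm.mul_apply, c3, Equiv.Perm.mul_apply, e, ← Equiv.Perm.mul_apply,
            ← map_mul]
          simp
        exact (A (r⁻¹ * g)).injective k2
    have : Finite (G ⧸ L) := by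
      apply Finite.of_injective (fun x : G ⧸ L => φ (Quotient.out x))
      intro x y hxy
      have h1 := hφ _ _ hxy
      rw [← QuotientGroup.eq] at h1
      simpa using h1
    exact Subgroup.finiteIndex_of_finite_quotient
  · refine ⟨MonoidHom.mk' ρ0 ?_, ?_⟩
    · intro g g'
      apply hρ_uniq
      · have e4 : ((ρ0 g * ρ0 g' : H) : G)⁻¹ * ((g * g' : L) : G) =
            ((ρ0 g' : G)⁻¹ * ((ρ0 g : G)⁻¹ * g) * (ρ0 g' : G)⁻¹⁻¹) * ((ρ0 g' : G)⁻¹ * g') := by
          push_cast
          group
        rw [e4]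
        exact N.mul_mem ((inferInstance : N.Normal).conj_mem _ (hρ1 g) _) (hρ1 g')
      · have : ((g * g' : L) : G) = (g : G) * (g' : G) := rfl
        rw [this, key _ _ _ (hρ1 g), map_mul]
        simp only [Equiv.Perm.mul_apply, Equiv.Perm.inv_def, Equiv.symm_apply_apply]
        rw [hρ2 g', hρ2 g]
    · intro k hk
      apply hρ_uniq
      · simp
      · have h1 := hbase ⟨k, hk⟩
        simp only at h1
        rw [← h1]
        simp only [hA]
        rw [← Equiv.Perm.mul_apply, hPcomp, hPid]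
        rfl

end Pool.Agent.Lib.MP_836f52_al_H7
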