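import Pool.Agent.Lib.MP_836f52_al_H7.Defs
import Pool.Agent.Lib.MP_836f52_al_H7.Graph

set_option autoImplicit false

/-!
Special actions on median graphs.
-/

namespace Pool.Agent.Lib.MP_836f52_al_H7

universe u v

/-- Let a group `G` act on the vertices of the median graph `X`.  The subgroup `K` *acts
specially* if
* (`free`) no nontrivial element of `K` fixes a vertex;
* (`no_osc`) no two different edges issuing from one vertex have halfspaces that are translates
  of each other under an element of `K` (hyperplanes do not cross or directly osculate their
  `K`-translates);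
* (`no_inter`) if two edges issuing from a vertex `x'` span a square, and two edges issuing from
  a vertex `x` have halfspaces that are `K`-translates of the halfspaces of the former two, then
  the latter two edges span a square as well (no inter-osculation modulo `K`). -/
structure ActsSpecially {G : Type u} [Group G] {V : Type v} [MulAction G V]
    (X : SimpleGraph V) (K : Subgroup G) : Prop where
  free : ∀ k ∈ K, ∀ x : V, k • x = x → k = 1
  no_osc : ∀ k ∈ K, ∀ x y y' : V, X.Adj x y → X.Adj x y' →
    halfspace X x y' = halfspace X (k • x) (k • y) → y = y'
  no_inter : ∀ k ∈ K, ∀ l ∈ K, ∀ x y z x' y' z' w' : V,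
    X.Adj x y → X.Adj x z →
    X.Adj x' y' → X.Adj x' z' → X.Adj y' w' → X.Adj z' w' → y' ≠ z' → x' ≠ w' →
    halfspace X x y = halfspace X (k • x') (k • y') →
    halfspace X x z = halfspace X (l • x') (l • z') →
    ∃ w : V, w ≠ x ∧ X.Adj y w ∧ X.Adj z w

end Pool.Agent.Lib.MP_836f52_al_H7
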