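import Pool.Agent.Lib.MP_836f52_al_H7.Graph

set_option autoImplicit false

/-!
Path systems on median graphs: edge labels in a group that are consistent on squares extend to
pairs of vertices.
-/

namespace Pool.Agent.Lib.MP_836f52_al_H7

universe u v

variable {V : Type u} {M : Type v} [Group M]

/-- Two path systems on a connected graph that agree on edges are equal. -/
lemma system_unique {X : SimpleGraph V} (hc : X.Connected) (P Q : V → V → M)
    (hPid : ∀ u, P u u = 1) (hPcomp : ∀ u v w, P v w * P u v = P u w)
    (hQid : ∀ u, Q u u = 1) (hQcomp : ∀ u v w, Q v w * Q u v = Q u w)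
    (hE : ∀ u v, X.Adj u v → P u v = Q u v) (u v : V) : P u v = Q u v := by
  obtain ⟨p⟩ := hc.preconnected u v
  induction p with
  | nil => rw [hPid, hQid]
  | cons h p ih => rw [← hPcomp _ _ _, ← hQcomp _ _ _, ih, hE _ _ h]

/-- Existence of a path system on a median graph. -/
lemma system_exists {X : SimpleGraph V} (hX : IsMedian X) (σ : V → V → M)
    (hinv : ∀ u v, X.Adj u v → σ v u = (σ u v)⁻¹)
    (hsq : ∀ x y z w, X.Adj x y → X.Adj y z → X.Adj z w → X.Adj w x → x ≠ z → y ≠ w →
      σ y z * σ x y = σ w z * σ x w) :
    ∃ P : V → V → M, (∀ u, P u u = 1) ∧ (∀ u v w, P v w * P u v = P u w) ∧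
      ∀ u v, X.Adj u v → P u v = σ u v := by
  classical
  have hc := hX.1
  obtain ⟨o⟩ := hc.nonempty
  -- predecessors
  have hpred : ∀ v : V, ∃ u : V, v ≠ o → X.Adj u v ∧ X.dist o v = X.dist o u + 1 := by
    intro v
    by_cases hv : v = o
    · exact ⟨v, fun h => absurd hv h⟩
    · obtain ⟨p, hp⟩ := hc.exists_walk_length_eq_dist v o
      cases p with
      | nil => exact absurd rfl hv
      | cons h p =>
        rename_i u
        refine ⟨u, fun _ => ⟨h.symm, ?_⟩⟩
        have h1 := X.dist_le p
        simp only [SimpleGraph.Walk.length_cons] at hp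
        have h2 := hX.dist_adj h o
        have c1 := X.dist_comm (u := v) (v := o)
        have c2 := X.dist_comm (u := u) (v := o)
        omega
  choose pr hpr using hpred
  let D' : ℕ → V → M := fun n => Nat.rec (fun _ => 1) (fun _ D v => σ (pr v) v * D (pr v)) n
  have hD0 : ∀ v, D' 0 v = 1 := fun v => rfl
  have hDs : ∀ n v, D' (n + 1) v = σ (pr v) v * D' n (pr v) := fun n v => rfl
  let D : V → M := fun v => D' (X.dist o v) v
  have hDv : ∀ v, v ≠ o → D v = σ (pr v) v * D (pr v) := by
    intro v hv
    simp only [D]
    rw [(hpr v hv).2, hDs]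
  have main : ∀ n : ℕ, ∀ u v, X.Adj u v → X.dist o v = n → X.dist o v = X.dist o u + 1 →
      D v = σ u v * D u := by
    intro n
    induction n using Nat.strong_induction_on with
    | _ n ih =>
      intro u v huv hn hv
      have hvo : v ≠ o := by
        rintro rfl
        simp at hv
      by_cases hup : u = pr v
      · rw [hup]
        exact hDv v hvo
      · obtain ⟨h1, h2⟩ := hpr v hvo
        obtain ⟨m, hm1, hm2, hm3⟩ := hX.quadrangle huv h1 hup hv h2
        rw [hDv v hvo]
        have e1 : D u = σ m u * D m := ih (X.dist o u) (by omega) m u hm1 rfl hm3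
        have e2 : D (pr v) = σ m (pr v) * D m :=
          ih (X.dist o (pr v)) (by omega) m (pr v) hm2 rfl (by omega)
        rw [e1, e2, ← mul_assoc, ← mul_assoc]
        congr 1
        have hmv : m ≠ v := by
          rintro rfl
          omega
        exact (hsq m u v (pr v) hm1 huv h1.symm hm2.symm hmv hup).symm
  refine ⟨fun u v => D v * (D u)⁻¹, fun u => by simp, fun u v w => by simp [mul_assoc], ?_⟩
  intro u v huv
  change D v * (D u)⁻¹ = σ u v
  rcases hX.dist_adj huv o with h | h
  · rw [main _ u v huv rfl h]
    group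
  · rw [main _ v u huv.symm rfl h, hinv u v huv]
    group

end Pool.Agent.Lib.MP_836f52_al_H7
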