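import Pool.Agent.Lib.MP_836f52_al_H7.Completion
import Pool.Agent.Lib.MP_836f52_al_H7.Retract
import Pool.Agent.Lib.MP_836f52_al_H7.System
import Pool.Agent.Lib.MP_836f52_al_H7.Special

set_option autoImplicit false

/-!
Convex cocompact subgroups of virtually special groups are virtual retracts (torsion allowed).
-/

namespace Pool.Agent.Lib.MP_836f52_al_H7

universe u v

section Action

variable {G : Type u} [Group G] {V : Type v} [MulAction G V] {X : SimpleGraph V}

lemma dist_smul_le (hc : X.Connected) (hact : ∀ (g : G) (x y : V), X.Adj x y → X.Adj (g • x) (g • y))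
    (g : G) (x y : V) : X.dist (g • x) (g • y) ≤ X.dist x y := by
  obtain ⟨p, hp⟩ := hc.exists_walk_length_eq_dist x y
  let f : X →g X := ⟨fun z => g • z, fun {a b} h => hact g a b h⟩
  have := X.dist_le (p.map f)
  rw [SimpleGraph.Walk.length_map, hp] at this
  exact this

lemma dist_smul (hc : X.Connected) (hact : ∀ (g : G) (x y : V), X.Adj x y → X.Adj (g • x) (g • y))
    (g : G) (x y : V) : X.dist (g • x) (g • y) = X.dist x y := by
  apply le_antisymm (dist_smul_le hc hact g x y)
  have := dist_smul_le hc hact g⁻¹ (g • x) (g • y)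
  simpa using this

lemma mem_halfspace_smul (hc : X.Connected)
    (hact : ∀ (g : G) (x y : V), X.Adj x y → X.Adj (g • x) (g • y))
    (g : G) (x y z : V) : g • z ∈ halfspace X (g • x) (g • y) ↔ z ∈ halfspace X x y := by
  simp only [halfspace, Set.mem_ofPred_eq, dist_smul hc hact]

lemma halfspace_smul_congr (hc : X.Connected)
    (hact : ∀ (g : G) (x y : V), X.Adj x y → X.Adj (g • x) (g • y))
    (g : G) {x y x' y' : V} (h : halfspace X x y = halfspace X x' y') :
    halfspace X (g • x) (g • y) = halfspace X (g • x') (g • y') := by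
  ext z
  have e : z = g • (g⁻¹ • z) := by simp
  rw [e, mem_halfspace_smul hc hact, mem_halfspace_smul hc hact, h]

lemma adj_smul_iff (hact : ∀ (g : G) (x y : V), X.Adj x y → X.Adj (g • x) (g • y))
    (g : G) (x y : V) : X.Adj (g • x) (g • y) ↔ X.Adj x y := by
  constructor
  · intro h
    have := hact g⁻¹ _ _ h
    simpa using this
  · exact hact g x y

end Action

/-- the labelled relation -/
def Rel {G : Type u} [Group G] {V : Type v} [MulAction G V] (X : SimpleGraph V)
    (N : Subgroup G) (W : Set V) (u v : V) (x y : W) : Prop :=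
  X.Adj (x : V) (y : V) ∧ ∃ n ∈ N, halfspace X (x : V) (y : V) = halfspace X (n • u) (n • v)

section Main

variable {G : Type u} [Group G] {V : Type v} [MulAction G V] {X : SimpleGraph V}
  {N : Subgroup G} {W : Set V}

lemma rel_functional (hX : IsMedian X)
    (hact : ∀ (g : G) (x y : V), X.Adj x y → X.Adj (g • x) (g • y))
    (hN : ActsSpecially X N) (u v : V) (x y y' : W)
    (h : Rel X N W u v x y) (h' : Rel X N W u v x y') : y = y' := by
  obtain ⟨h1, n, hn, e⟩ := h
  obtain ⟨h1', n', hn', e'⟩ := h'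
  apply Subtype.ext
  have e2 := halfspace_smul_congr hX.1 hact (n' * n⁻¹) e
  have e3 : halfspace X ((n' * n⁻¹) • n • u) ((n' * n⁻¹) • n • v) =
      halfspace X (n' • u) (n' • v) := by
    simp only [← mul_smul]
    simp
  rw [e3, ← e'] at e2
  exact hN.no_osc _ (N.mul_mem hn' (N.inv_mem hn)) _ _ _ h1 h1' e2.symm

lemma rel_injective (hX : IsMedian X)
    (hact : ∀ (g : G) (x y : V), X.Adj x y → X.Adj (g • x) (g • y))
    (hN : ActsSpecially X N) (u v : V) (x x' y : W)
    (h : Rel X N W u v x y) (h' : Rel X N W u v x' y) : x = x' := by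
  obtain ⟨h1, n, hn, e⟩ := h
  obtain ⟨h1', n', hn', e'⟩ := h'
  apply Subtype.ext
  have e2 := halfspace_smul_congr hX.1 hact (n' * n⁻¹) e
  have e3 : halfspace X ((n' * n⁻¹) • n • u) ((n' * n⁻¹) • n • v) =
      halfspace X (n' • u) (n' • v) := by
    simp only [← mul_smul]
    simp
  rw [e3, ← e'] at e2
  have e4 : halfspace X (y : V) (x' : V) =
      halfspace X ((n' * n⁻¹) • (y : V)) ((n' * n⁻¹) • (x : V)) := by
    rw [hX.halfspace_compl h1', hX.halfspace_compl (hact _ _ _ h1), e2]
  exact hN.no_osc _ (N.mul_mem hn' (N.inv_mem hn)) _ _ _ h1.symm h1'.symm e4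

lemma rel_swap (hX : IsMedian X)
    (hact : ∀ (g : G) (x y : V), X.Adj x y → X.Adj (g • x) (g • y))
    {u v : V} (huv : X.Adj u v) (x y : W) : Rel X N W v u y x ↔ Rel X N W u v x y := by
  constructor
  · rintro ⟨h1, n, hn, e⟩
    refine ⟨h1.symm, n, hn, ?_⟩
    rw [hX.halfspace_compl h1, hX.halfspace_compl (hact n _ _ huv.symm), e]
  · rintro ⟨h1, n, hn, e⟩
    refine ⟨h1.symm, n, hn, ?_⟩
    rw [hX.halfspace_compl h1, hX.halfspace_compl (hact n _ _ huv), e]

lemma rel_congr (hX : IsMedian X)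
    (hact : ∀ (g : G) (x y : V), X.Adj x y → X.Adj (g • x) (g • y))
    {u v u' v' : V} (h : halfspace X u v = halfspace X u' v') (x y : W) :
    Rel X N W u v x y ↔ Rel X N W u' v' x y := by
  constructor
  · rintro ⟨h1, n, hn, e⟩
    exact ⟨h1, n, hn, e.trans (halfspace_smul_congr hX.1 hact n h)⟩
  · rintro ⟨h1, n, hn, e⟩
    exact ⟨h1, n, hn, e.trans (halfspace_smul_congr hX.1 hact n h.symm)⟩

lemma rel_smulN (m : G) (hm : m ∈ N) (u v : V) (x y : W) :
    Rel X N W (m • u) (m • v) x y ↔ Rel X N W u v x y := by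
  constructor
  · rintro ⟨h1, n, hn, e⟩
    refine ⟨h1, n * m, N.mul_mem hn hm, ?_⟩
    rw [e, mul_smul, mul_smul]
  · rintro ⟨h1, n, hn, e⟩
    refine ⟨h1, n * m⁻¹, N.mul_mem hn (N.inv_mem hm), ?_⟩
    rw [e]
    simp only [← mul_smul]
    simp

/-- the corner lemma -/
lemma corner (hX : IsMedian X)
    (hact : ∀ (g : G) (x y : V), X.Adj x y → X.Adj (g • x) (g • y))
    (hN : ActsSpecially X N) (hW : IsConvex X W)
    {p q r s : V} (hpq : X.Adj p q) (hqr : X.Adj q r) (hrs : X.Adj r s) (hsp : X.Adj s p)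
    (hpr : p ≠ r) (hqs : q ≠ s) (x y z : W)
    (hxy : Rel X N W p q x y) (hxz : Rel X N W p s x z) :
    ∃ w : W, Rel X N W p s y w ∧ Rel X N W p q z w := by
  have hxy0 := hxy
  have hxz0 := hxz
  obtain ⟨h1, n, hn, e⟩ := hxy
  obtain ⟨h2, l, hl, e'⟩ := hxz
  have hyz : (y : V) ≠ (z : V) := by
    intro hyz
    rw [hyz] at e
    have e1 : halfspace X (n • p) (n • q) = halfspace X (l • p) (l • s) := e.symm.trans e'
    have e2 := halfspace_smul_congr hX.1 hact l⁻¹ e1.symm
    have e3 : halfspace X p s = halfspace X ((l⁻¹ * n) • p) ((l⁻¹ * n) • q) := by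
      simpa [mul_smul] using e2
    exact hqs (hN.no_osc _ (N.mul_mem (N.inv_mem hl) hn) _ _ _ hpq hsp.symm e3)
  obtain ⟨w, hw1, hw2, hw3⟩ := hN.no_inter n hn l hl (x : V) (y : V) (z : V) p q s r h1 h2
    hpq hsp.symm hqr hrs.symm hqs hpr e e'
  have hwW : w ∈ W := by
    apply hW (y : V) y.2 (z : V) z.2
    have d1 := hX.dist_two h1.symm h2 hyz
    have d2 : X.dist (y : V) w = 1 := SimpleGraph.dist_eq_one_iff_adj.2 hw2
    have d3 : X.dist w (z : V) = 1 := SimpleGraph.dist_eq_one_iff_adj.2 hw3.symm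
    omega
  refine ⟨⟨w, hwW⟩, ⟨hw2, l, hl, ?_⟩, ⟨hw3, n, hn, ?_⟩⟩
  · rw [← e']
    exact (hX.halfspace_square h2 hw3 hw2.symm h1.symm hw1.symm hyz.symm).symm
  · rw [← e]
    exact (hX.halfspace_square h1 hw2 hw3.symm h2.symm hw1.symm hyz).symm

lemma strongComm (hX : IsMedian X)
    (hact : ∀ (g : G) (x y : V), X.Adj x y → X.Adj (g • x) (g • y))
    (hN : ActsSpecially X N) (hW : IsConvex X W)
    {p q r s : V} (hpq : X.Adj p q) (hqr : X.Adj q r) (hrs : X.Adj r s) (hsp : X.Adj s p)
    (hpr : p ≠ r) (hqs : q ≠ s) : StrongComm (Rel X N W p q) (Rel X N W p s) := by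
  have e1 : halfspace X p q = halfspace X s r := hX.halfspace_square hpq hqr hrs hsp hpr hqs
  have e2 : halfspace X p s = halfspace X q r :=
    hX.halfspace_square hsp.symm hrs.symm hqr.symm hpq.symm hpr hqs.symm
  refine ⟨?_, ?_, ?_, ?_⟩
  · intro x y z hxy hxz
    exact corner hX hact hN hW hpq hqr hrs hsp hpr hqs x y z hxy hxz
  · -- corner q
    intro x y w hxy hyw
    have h1 : Rel X N W q p y x := (rel_swap hX hact hpq x y).2 hxy
    have h2 : Rel X N W q r y w := (rel_congr hX hact e2 y w).1 hyw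
    obtain ⟨z, hz1, hz2⟩ := corner hX hact hN hW hpq.symm hsp.symm hrs.symm hqr.symm hqs hpr
      y x w h1 h2
    refine ⟨z, (rel_congr hX hact e2 x z).2 hz1, ?_⟩
    exact (rel_swap hX hact hpq z w).1 hz2
  · intro x z w hxz hzw
    have h1 : Rel X N W s p z x := (rel_swap hX hact hsp.symm x z).2 hxz
    have h2 : Rel X N W s r z w := (rel_congr hX hact e1 z w).1 hzw
    obtain ⟨y, hy1, hy2⟩ := corner hX hact hN hW hsp hpq hqr hrs hqs.symm hpr.symm.symm
      z x w h1 h2
    refine ⟨y, (rel_congr hX hact e1 x y).2 hy1, ?_⟩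
    exact (rel_swap hX hact hsp.symm y w).1 hy2
  · -- corner r
    intro y z w hyw hzw
    have h1 : Rel X N W q r y w := (rel_congr hX hact e2 y w).1 hyw
    have h2 : Rel X N W s r z w := (rel_congr hX hact e1 z w).1 hzw
    have h1' : Rel X N W r q w y := (rel_swap hX hact hqr y w).2 h1
    have h2' : Rel X N W r s w z := (rel_swap hX hact hrs.symm z w).2 h2
    obtain ⟨x, hx1, hx2⟩ := corner hX hact hN hW hqr.symm hpq.symm hsp.symm hrs.symm hpr.symm hqs
      w y z h1' h2'
    -- hx1 : Rel r s y x, hx2 : Rel r q z x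
    refine ⟨x, ?_, ?_⟩
    · have := (rel_swap hX hact hrs.symm x y).1 hx1
      exact (rel_congr hX hact e1 x y).2 this
    · have := (rel_swap hX hact hqr x z).1 hx2
      exact (rel_congr hX hact e2 x z).2 this

end Main

/-- restriction of special actions to subgroups -/
lemma ActsSpecially.mono {G : Type u} [Group G] {V : Type v} [MulAction G V]
    {X : SimpleGraph V} {K N : Subgroup G} (h : ActsSpecially X K) (hNK : N ≤ K) :
    ActsSpecially X N where
  free k hk := h.free k (hNK hk)
  no_osc k hk := h.no_osc k (hNK hk)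
  no_inter k hk l hl := h.no_inter k (hNK hk) l (hNK hl)

theorem convex_core_virtualRetract {G : Type u} [Group G] {V : Type v} [MulAction G V]
    (X : SimpleGraph V) (hX : IsMedian X)
    (hact : ∀ (g : G) (x y : V), X.Adj x y → X.Adj (g • x) (g • y))
    (K : Subgroup G) (hfin : K.FiniteIndex) (hK : ActsSpecially X K)
    (H : Subgroup G) (W : Set V) (hne : W.Nonempty) (hW : IsConvex X W)
    (hHW : ∀ h ∈ H, ∀ x ∈ W, h • x ∈ W)
    (hcof : ∃ B : Set V, B.Finite ∧ ∀ x ∈ W, ∃ h ∈ H, ∃ b ∈ B, h • b = x) :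
    IsVirtualRetract H := by
  classical
  set N : Subgroup G := K.normalCore with hNdef
  have hNnormal : N.Normal := K.normalCore_normal
  have hNfin : N.FiniteIndex := by
    rw [hNdef]
    infer_instance
  have hN : ActsSpecially X N := hK.mono (Subgroup.normalCore_le K)
  have hc := hX.1
  obtain ⟨v0, hv0⟩ := hne
  obtain ⟨B, hB, hBW⟩ := hcof
  -- the action of `H` on `W`
  let act : H → Equiv.Perm W := fun h =>
    { toFun := fun x => ⟨(h : G) • (x : V), hHW h h.2 x x.2⟩
      invFun := fun x => ⟨(h : G)⁻¹ • (x : V), hHW _ (H.inv_mem h.2) x x.2⟩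
      left_inv := fun x => by simp
      right_inv := fun x => by simp }
  let a : H →* Equiv.Perm W := MonoidHom.mk' act (by
    intro g h
    ext x
    simp [act, mul_smul])
  have ha : ∀ (h : H) (x : W), ((a h x : W) : V) = (h : G) • (x : V) := fun h x => rfl
  -- finiteness
  choose! hh hhH bb hbb hhb using hBW
  have : Finite B := hB
  let o : W → (G ⧸ N) × B := fun x => ((hh x : G ⧸ N), ⟨bb x, hbb x x.2⟩)
  have ho : ∀ x y, o x = o y → ∃ m : H, (m : G) ∈ N ∧ y = a m x := by
    intro x y hxy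
    have q1 : ((hh x : G) : G ⧸ N) = (hh y : G) := congrArg Prod.fst hxy
    have q2 : bb x = bb y := congrArg (fun t => (t.2 : V)) hxy
    rw [QuotientGroup.eq] at q1
    refine ⟨⟨hh y * (hh x)⁻¹, H.mul_mem (hhH y y.2) (H.inv_mem (hhH x x.2))⟩, ?_, ?_⟩
    · have := hNnormal.conj_mem _ q1 (hh x)
      have e : hh x * ((hh x)⁻¹ * hh y) * (hh x)⁻¹ = hh y * (hh x)⁻¹ := by group
      rwa [e] at this
    · apply Subtype.ext
      rw [ha]
      have e1 : hh (x : V) • bb (x : V) = x := hhb x x.2
      have e2 : hh (y : V) • bb (y : V) = y := hhb y y.2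
      have e3 : (hh (x : V))⁻¹ • (x : V) = bb (y : V) := by
        rw [inv_smul_eq_iff, ← q2, e1]
      change (y : V) = (hh (y : V) * (hh (x : V))⁻¹) • (x : V)
      rw [mul_smul, e3, e2]
  -- invariance under `H ∩ N`
  have hconj : ∀ (h : H) (u v : V) (x y : W),
      Rel X N W u v x y ↔ Rel X N W ((h : G) • u) ((h : G) • v) (a h x) (a h y) := by
    have aux : ∀ (h : H) (u v : V) (x y : W),
      Rel X N W u v x y → Rel X N W ((h : G) • u) ((h : G) • v) (a h x) (a h y) := by
      rintro h u v x y ⟨h1, n, hn, e⟩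
      refine ⟨hact _ _ _ h1, (h : G) * n * (h : G)⁻¹, hNnormal.conj_mem _ hn _, ?_⟩
      rw [ha, ha, halfspace_smul_congr hc hact (h : G) e]
      simp only [← mul_smul]
      congr 2 <;> group
    intro h u v x y
    constructor
    · exact aux h u v x y
    · intro hr
      have := aux h⁻¹ _ _ _ _ hr
      simpa [← mul_smul, ← Equiv.Perm.mul_apply, ← map_mul] using this
  have hHN : ∀ (m : H), (m : G) ∈ N → ∀ (u v : V) (x y : W),
      Rel X N W u v x y ↔ Rel X N W u v (a m x) (a m y) := by
    intro m hm u v x y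
    rw [hconj m u v x y, rel_smulN _ hm]
  have hex1 : ∀ (u v : V) (x : W), ∃! y, Compl (Rel X N W u v) x y := by
    intro u v
    apply compl_existsUnique (rel_functional hX hact hN u v) (rel_injective hX hact hN u v)
    apply chain_finite (rel_functional hX hact hN u v) o
    intro x y hxy
    obtain ⟨m, hm, e⟩ := ho x y hxy
    exact ⟨a m, hHN m hm u v, e⟩
  have hex2 : ∀ (u v : V) (y : W), ∃! x, Compl (Rel X N W u v) x y := by
    intro u v y
    have : ∃! x, Compl (Function.swap (Rel X N W u v)) y x := by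
      revert y
      apply compl_existsUnique
      · intro y x x' h h'
        exact rel_injective hX hact hN u v _ _ _ h h'
      · intro y y' x h h'
        exact rel_functional hX hact hN u v _ _ _ h h'
      · apply chain_finite _ o
        · intro x y hxy
          obtain ⟨m, hm, e⟩ := ho x y hxy
          exact ⟨a m, fun p q => hHN m hm u v q p, e⟩
        · intro y x x' h h'
          exact rel_injective hX hact hN u v _ _ _ h h'
    simpa only [compl_swap] using this
  let σ : V → V → Equiv.Perm W := fun u v => complPerm (Rel X N W u v) (hex1 u v) (hex2 u v)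
  have hσ : ∀ u v x y, σ u v x = y ↔ Compl (Rel X N W u v) x y := fun u v x y =>
    complPerm_eq_iff _ _ _ x y
  have hσcongr : ∀ u v u' v' : V, (∀ x y, Rel X N W u v x y ↔ Rel X N W u' v' x y) →
      σ u v = σ u' v' := by
    intro u v u' v' h
    have : Rel X N W u v = Rel X N W u' v' := by
      ext x y
      exact h x y
    ext x
    congr 1
    rw [hσ, this, ← hσ]
  have hσinv : ∀ u v, X.Adj u v → σ v u = (σ u v)⁻¹ := by
    intro u v huv
    ext x
    congr 1
    rw [hσ]
    have : Rel X N W v u = Function.swap (Rel X N W u v) := by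
      ext x y
      exact rel_swap hX hact huv y x
    rw [this, compl_swap, ← hσ]
    simp
  have hσsq : ∀ x y z w, X.Adj x y → X.Adj y z → X.Adj z w → X.Adj w x → x ≠ z → y ≠ w →
      σ y z * σ x y = σ w z * σ x w := by
    intro x y z w hxy hyz hzw hwx hxz hyw
    have e1 : halfspace X x y = halfspace X w z := hX.halfspace_square hxy hyz hzw hwx hxz hyw
    have e2 : halfspace X x w = halfspace X y z :=
      hX.halfspace_square hwx.symm hzw.symm hyz.symm hxy.symm hxz hyw.symm
    have s1 : σ x y = σ w z := hσcongr _ _ _ _ (rel_congr hX hact e1)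
    have s2 : σ x w = σ y z := hσcongr _ _ _ _ (rel_congr hX hact e2)
    rw [← s1, ← s2]
    have hsc := strongComm hX hact hN hW hxy hyz hzw hwx hxz hyw
    ext p
    congr 1
    simp only [Equiv.Perm.mul_apply]
    obtain ⟨w', hw1, hw2⟩ := hsc.compl_comm ((hσ _ _ p _).1 rfl) ((hσ _ _ p _).1 rfl)
    rw [(hσ _ _ _ _).2 hw1, (hσ _ _ _ _).2 hw2]
  obtain ⟨P, hPid, hPcomp, hPσ⟩ := system_exists hX σ hσinv hσsq
  have hbase' : ∀ n : ℕ, ∀ (u v : V) (hu : u ∈ W) (hv : v ∈ W), X.dist u v = n →
      P u v ⟨u, hu⟩ = ⟨v, hv⟩ := by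
    intro n
    induction n with
    | zero =>
      intro u v hu hv h0
      have : u = v := hc.dist_eq_zero_iff.1 h0
      subst this
      rw [hPid]
      rfl
    | succ n ih =>
      intro u v hu hv hn
      obtain ⟨p, hp⟩ := hc.exists_walk_length_eq_dist u v
      cases p with
      | nil => simp at hn
      | cons h p =>
        rename_i w
        simp only [SimpleGraph.Walk.length_cons] at hp
        have h1 := X.dist_le p
        have h2 : X.dist u w = 1 := SimpleGraph.dist_eq_one_iff_adj.2 h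
        have h3 := hc.dist_triangle (u := u) (v := w) (w := v)
        have hw : w ∈ W := hW u hu v hv w (by omega)
        have h4 := ih w v hw hv (by omega)
        rw [← hPcomp u w v, Equiv.Perm.mul_apply, hPσ _ _ h]
        have h5 : σ u w ⟨u, hu⟩ = ⟨w, hw⟩ := by
          rw [hσ]
          left
          exact ⟨h, 1, N.one_mem, by simp⟩
        rw [h5, h4]
  refine virtualRetract_of_system (W := W) N H a P v0 ⟨v0, hv0⟩ hPid hPcomp ?_ ?_ ?_ ?_ o ho
  · intro n hn u v
    refine system_unique hc (fun u v => P (n • u) (n • v)) P (fun u => hPid _)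
      (fun u v w => hPcomp _ _ _) hPid hPcomp ?_ u v
    intro u v huv
    rw [hPσ _ _ huv, hPσ _ _ (hact n _ _ huv)]
    exact hσcongr _ _ _ _ (rel_smulN n hn u v)
  · intro h u v
    refine system_unique hc (fun u v => P ((h : G) • u) ((h : G) • v))
      (fun u v => a h * P u v * (a h)⁻¹) (fun u => hPid _)
      (fun u v w => hPcomp _ _ _) (fun u => by simp [hPid]) ?_ ?_ u v
    · intro u v w
      rw [← hPcomp u v w]
      group
    · intro u v huv
      rw [hPσ _ _ huv, hPσ _ _ (hact _ _ _ huv)]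
      ext x
      congr 1
      rw [hσ]
      have k1 := (compl_map (a h) (hconj h u v) ((a h)⁻¹ x) (σ u v ((a h)⁻¹ x))).1
        ((hσ _ _ _ _).1 rfl)
      simpa using k1
  · intro m hm hmw
    have := congrArg Subtype.val hmw
    rw [ha] at this
    exact Subtype.ext (hN.free _ hm _ this)
  · intro h
    have h1 : (h : G) • v0 ∈ W := hHW h h.2 v0 hv0
    rw [hbase' _ v0 ((h : G) • v0) hv0 h1 rfl]
    rfl

end Pool.Agent.Lib.MP_836f52_al_H7
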