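import Pool.Agent.Lib.MP_836f52_al_H7.Main

set_option autoImplicit false

/-!
Trees: they are median graphs, free actions are special, finitely generated subgroups have
convex cores.
-/

namespace Pool.Agent.Lib.MP_836f52_al_H7

universe u v

variable {V : Type v} {T : SimpleGraph V}

lemma first_step (hc : T.Connected) {x y : V} (h : x ≠ y) :
    ∃ z, T.Adj x z ∧ T.dist x y = T.dist z y + 1 := by
  obtain ⟨p, hp⟩ := hc.exists_walk_length_eq_dist x y
  cases p with
  | nil => exact absurd rfl h
  | cons hxz p =>
    rename_i z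
    simp only [SimpleGraph.Walk.length_cons] at hp
    have h1 := T.dist_le p
    have h2 : T.dist x z = 1 := SimpleGraph.dist_eq_one_iff_adj.2 hxz
    have h3 := hc.dist_triangle (u := x) (v := z) (w := y)
    exact ⟨z, hxz, by omega⟩

lemma tree_parent (hT : T.IsTree) {o v y y' : V} (h1 : T.Adj y v) (h2 : T.Adj y' v)
    (e1 : T.dist o v = T.dist o y + 1) (e2 : T.dist o v = T.dist o y' + 1) : y = y' := by
  have hc := hT.1
  obtain ⟨p, hp⟩ := hc.exists_walk_length_eq_dist o y
  obtain ⟨q, hq⟩ := hc.exists_walk_length_eq_dist o y'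
  have hp' : (p.concat h1).IsPath := by
    apply SimpleGraph.Walk.isPath_of_length_eq_dist
    rw [SimpleGraph.Walk.length_concat]
    omega
  have hq' : (q.concat h2).IsPath := by
    apply SimpleGraph.Walk.isPath_of_length_eq_dist
    rw [SimpleGraph.Walk.length_concat]
    omega
  have := (hT.2.subsingleton_path _ _).elim (⟨_, hp'⟩ : T.Path o v) ⟨_, hq'⟩
  have h3 : p.concat h1 = q.concat h2 := congrArg Subtype.val this
  have h4 := congrArg SimpleGraph.Walk.penultimate h3
  simpa using h4

lemma tree_dist_adj (hT : T.IsTree) {x y : V} (h : T.Adj x y) (w : V) :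
    T.dist w y = T.dist w x + 1 ∨ T.dist w x = T.dist w y + 1 := by
  rcases hT.dist_eq_dist_add_one_of_adj w h with h | h
  · exact Or.inr h
  · exact Or.inl h

lemma tree_interval_unique (hT : T.IsTree) (a b : V) : ∀ (k : ℕ) (m m' : V),
    T.dist a m + T.dist m b = T.dist a b → T.dist a m' + T.dist m' b = T.dist a b →
    T.dist m b = k → T.dist m' b = k → m = m' := by
  have hc := hT.1
  intro k
  induction k with
  | zero =>
    intro m m' _ _ h h'
    rw [hc.dist_eq_zero_iff.1 h, hc.dist_eq_zero_iff.1 h']
  | succ k ih =>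
    intro m m' hm hm' h h'
    have hmb : m ≠ b := by
      rintro rfl
      simp at h
    have hmb' : m' ≠ b := by
      rintro rfl
      simp at h'
    obtain ⟨m1, hm1, e1⟩ := first_step hc hmb
    obtain ⟨m2, hm2, e2⟩ := first_step hc hmb'
    have d1 := tree_dist_adj hT hm1 a
    have d2 := tree_dist_adj hT hm2 a
    have t1 := hc.dist_triangle (u := a) (v := m1) (w := b)
    have t2 := hc.dist_triangle (u := a) (v := m2) (w := b)
    have := ih m1 m2 (by omega) (by omega) (by omega) (by omega)
    subst this
    exact tree_parent hT (o := a) hm1 hm2 (by omega) (by omega)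

lemma tree_median_exists (hT : T.IsTree) (o : V) : ∀ (n : ℕ) (a b : V), T.dist a b = n →
    ∃ m, T.dist a m + T.dist m b = T.dist a b ∧ T.dist o a = T.dist o m + T.dist m a ∧
      T.dist o b = T.dist o m + T.dist m b := by
  have hc := hT.1
  intro n
  induction n with
  | zero =>
    intro a b h
    have := hc.dist_eq_zero_iff.1 h
    subst this
    exact ⟨a, by simp, by simp, by simp⟩
  | succ n ih =>
    intro a b h
    have hab : a ≠ b := by
      rintro rfl
      simp at h
    obtain ⟨a', ha', e'⟩ := first_step hc hab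
    obtain ⟨m, h1, h2, h3⟩ := ih a' b (by omega)
    have d1 : T.dist a a' = 1 := SimpleGraph.dist_eq_one_iff_adj.2 ha'
    have c1 := T.dist_comm (u := a') (v := m)
    have c2 := T.dist_comm (u := a) (v := m)
    have t1 := hc.dist_triangle (u := a) (v := a') (w := m)
    have t2 := hc.dist_triangle (u := a) (v := m) (w := b)
    rcases tree_dist_adj hT ha' o with h4 | h4
    · -- `a'` farther than `a`
      by_cases hm : a' = m
      · subst hm
        refine ⟨a, by simp, by simp, ?_⟩
        omega
      · obtain ⟨a2, ha2, e2⟩ := first_step hc hm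
        have t3 := hc.dist_triangle (u := o) (v := m) (w := a2)
        have c3 := T.dist_comm (u := a2) (v := m)
        have d3 := tree_dist_adj hT ha2 o
        have : a = a2 := tree_parent hT (o := o) ha' ha2.symm (by omega) (by omega)
        subst this
        omega
    · exact ⟨m, by omega, by omega, by omega⟩

lemma tree_isMedian (hT : T.IsTree) : IsMedian T := by
  have hc := hT.1
  refine ⟨hc, ?_⟩
  intro a b c
  obtain ⟨m, h1, h2, h3⟩ := tree_median_exists hT c _ a b rfl
  have c1 := T.dist_comm (u := b) (v := m)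
  have c2 := T.dist_comm (u := a) (v := m)
  have c3 := T.dist_comm (u := c) (v := m)
  have c4 := T.dist_comm (u := c) (v := a)
  have c5 := T.dist_comm (u := c) (v := b)
  refine ⟨m, ⟨by omega, by omega, by omega⟩, ?_⟩
  rintro m' ⟨k1, k2, k3⟩
  have c6 := T.dist_comm (u := b) (v := m')
  apply tree_interval_unique hT a b (T.dist m b) m' m (by omega) (by omega) (by omega) rfl

/-- an edge that crosses the halfspace of an edge of a tree is that edge -/
lemma tree_crossing (hT : T.IsTree) {x y a b : V} (hxy : T.Adj x y) (hab : T.Adj a b)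
    (ha : a ∉ halfspace T x y) (hb : b ∈ halfspace T x y) : a = x ∧ b = y := by
  have hc := hT.1
  simp only [halfspace, Set.mem_ofPred_eq] at ha hb
  have d1 := tree_dist_adj hT hxy a
  have d2 := tree_dist_adj hT hxy b
  have d3 := tree_dist_adj hT hab x
  have d4 := tree_dist_adj hT hab y
  have c1 := T.dist_comm (u := a) (v := x)
  have c2 := T.dist_comm (u := a) (v := y)
  have c3 := T.dist_comm (u := b) (v := x)
  have c4 := T.dist_comm (u := b) (v := y)
  have hax : a = x := by
    by_contra hne
    obtain ⟨x1, hx1, e1⟩ := first_step hc (Ne.symm hne)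
    have t1 := hc.dist_triangle (u := x1) (v := a) (w := b)
    have d5 : T.dist a b = 1 := SimpleGraph.dist_eq_one_iff_adj.2 hab
    have d6 := tree_dist_adj hT hx1 b
    have c5 := T.dist_comm (u := x1) (v := b)
    have c6 := T.dist_comm (u := x1) (v := a)
    have : x1 = y := tree_parent hT (o := b) hx1.symm hxy.symm (by omega) (by omega)
    subst this
    omega
  subst hax
  refine ⟨rfl, ?_⟩
  have : T.dist a a = 0 := by simp
  have : T.dist b y = 0 := by omega
  exact hc.dist_eq_zero_iff.1 this

lemma tree_special {G : Type u} [Group G] [MulAction G V] (hT : T.IsTree)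
    (hact : ∀ (g : G) (x y : V), T.Adj x y → T.Adj (g • x) (g • y))
    (K : Subgroup G) (hfree : ∀ k ∈ K, ∀ x : V, k • x = x → k = 1) : ActsSpecially T K where
  free := hfree
  no_osc k hk x y y' hxy hxy' e := by
    have hmed := tree_isMedian hT
    have h1 : k • x ∉ halfspace T x y' := by
      rw [e]
      simp [halfspace]
    have h2 : k • y ∈ halfspace T x y' := by
      rw [e]
      simp only [halfspace, Set.mem_ofPred_eq, SimpleGraph.dist_self]
      have : T.dist (k • y) (k • x) = 1 :=
        SimpleGraph.dist_eq_one_iff_adj.2 (hact k _ _ hxy).symm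
      omega
    obtain ⟨h3, h4⟩ := tree_crossing hT hxy' (hact k _ _ hxy) h1 h2
    have := hfree k hk x h3
    subst this
    simpa using h4
  no_inter k _ l _ x y z x' y' z' w' _ _ h1 h2 h3 h4 hne hne' _ _ := by
    exfalso
    have hmed := tree_isMedian hT
    have d := hmed.dist_two h1 h3 hne'
    have d1 : T.dist x' y' = 1 := SimpleGraph.dist_eq_one_iff_adj.2 h1
    have d2 : T.dist x' z' = 1 := SimpleGraph.dist_eq_one_iff_adj.2 h2
    exact hne (tree_parent hT (o := x') h3 h4 (by omega) (by omega))

/-- points between two vertices of a tree lie on every path -/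
lemma tree_mem_support (hT : T.IsTree) {a c z : V} (h : T.dist a z + T.dist z c = T.dist a c)
    (p : T.Walk a c) : z ∈ p.support := by
  classical
  have hc := hT.1
  obtain ⟨p1, hp1⟩ := hc.exists_walk_length_eq_dist a z
  obtain ⟨p2, hp2⟩ := hc.exists_walk_length_eq_dist z c
  have h1 : (p1.append p2).IsPath := by
    apply SimpleGraph.Walk.isPath_of_length_eq_dist
    rw [SimpleGraph.Walk.length_append]
    omega
  have := (hT.2.subsingleton_path _ _).elim (⟨_, h1⟩ : T.Path a c) ⟨_, p.bypass_isPath⟩
  have h2 : p1.append p2 = p.bypass := congrArg Subtype.val this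
  apply p.support_bypass_subset_support
  rw [← h2, SimpleGraph.Walk.mem_support_append_iff]
  left
  exact p1.end_mem_support

lemma mem_interval_of_support (hc : T.Connected) {a c z : V} (p : T.Walk a c)
    (hp : p.length = T.dist a c) (hz : z ∈ p.support) :
    T.dist a z + T.dist z c = T.dist a c := by
  classical
  have h1 := p.take_spec hz
  have h2 := congrArg SimpleGraph.Walk.length h1
  rw [SimpleGraph.Walk.length_append] at h2
  have h3 := T.dist_le (p.takeUntil z hz)
  have h4 := T.dist_le (p.dropUntil z hz)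
  have h5 := hc.dist_triangle (u := a) (v := z) (w := c)
  omega

lemma tree_split (hT : T.IsTree) {a c z : V} (b : V)
    (h : T.dist a z + T.dist z c = T.dist a c) :
    T.dist a z + T.dist z b = T.dist a b ∨ T.dist b z + T.dist z c = T.dist b c := by
  have hc := hT.1
  obtain ⟨p1, hp1⟩ := hc.exists_walk_length_eq_dist a b
  obtain ⟨p2, hp2⟩ := hc.exists_walk_length_eq_dist b c
  have := tree_mem_support hT h (p1.append p2)
  rw [SimpleGraph.Walk.mem_support_append_iff] at this
  rcases this with h1 | h1
  · exact Or.inl (mem_interval_of_support hc p1 hp1 h1)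
  · exact Or.inr (mem_interval_of_support hc p2 hp2 h1)

lemma tree_interval_finite (hT : T.IsTree) (a c : V) :
    {z : V | T.dist a z + T.dist z c = T.dist a c}.Finite := by
  obtain ⟨p⟩ := hT.1.preconnected a c
  apply Set.Finite.subset (List.finite_toSet p.support)
  intro z hz
  exact tree_mem_support hT hz p

/-- Finitely generated groups acting on trees have cofinite convex cores. -/
lemma tree_core {G : Type u} [Group G] [MulAction G V] (hT : T.IsTree)
    (hact : ∀ (g : G) (x y : V), T.Adj x y → T.Adj (g • x) (g • y))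
    (H : Subgroup G) (hH : H.FG) : ∃ W : Set V, W.Nonempty ∧ IsConvex T W ∧
      (∀ h ∈ H, ∀ x ∈ W, h • x ∈ W) ∧
      ∃ B : Set V, B.Finite ∧ ∀ x ∈ W, ∃ h ∈ H, ∃ b ∈ B, h • b = x := by
  classical
  have hc := hT.1
  obtain ⟨v0⟩ := hc.nonempty
  have hd := dist_smul (X := T) hc hact
  obtain ⟨S, hS⟩ := hH
  -- intervals
  let I : V → V → Set V := fun a c => {z : V | T.dist a z + T.dist z c = T.dist a c}
  have hI : ∀ a c z, z ∈ I a c ↔ T.dist a z + T.dist z c = T.dist a c := fun a c z => Iff.rfl
  have hIsm : ∀ (g : G) a c z, g • z ∈ I (g • a) (g • c) ↔ z ∈ I a c := by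
    intro g a c z
    rw [hI, hI, hd, hd, hd]
  have hIcomm : ∀ a c z, z ∈ I a c ↔ z ∈ I c a := by
    intro a c z
    rw [hI, hI, T.dist_comm (u := a) (v := z), T.dist_comm (u := z) (v := c),
      T.dist_comm (u := a) (v := c)]
    omega
  have hIself : ∀ a c, a ∈ I a c := by
    intro a c
    rw [hI]
    simp
  -- trivial transitivity
  have hItrans : ∀ a c x z, x ∈ I a c → z ∈ I a x → z ∈ I a c := by
    intro a c x z hx hz
    rw [hI] at *
    have t1 := hc.dist_triangle (u := z) (v := x) (w := c)
    have t2 := hc.dist_triangle (u := a) (v := z) (w := c)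
    omega
  have hsplit : ∀ a c z b, z ∈ I a c → z ∈ I a b ∨ z ∈ I b c := by
    intro a c z b hz
    exact tree_split hT b hz
  refine ⟨{z | ∃ g ∈ H, ∃ h ∈ H, z ∈ I (g • v0) (h • v0)}, ?_, ?_, ?_, ?_⟩
  · exact ⟨v0, 1, H.one_mem, 1, H.one_mem, by simpa using hIself v0 v0⟩
  · rintro x ⟨g, hg, h, hh, hx⟩ y ⟨g', hg', h', hh', hy⟩ z hz
    rcases hsplit x y z (g • v0) hz with h1 | h1
    · rw [hIcomm] at h1
      exact ⟨g, hg, h, hh, hItrans _ _ _ _ hx h1⟩
    · rcases hsplit _ _ z (g' • v0) h1 with h2 | h2
      · exact ⟨g, hg, g', hg', h2⟩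
      · exact ⟨g', hg', h', hh', hItrans _ _ _ _ hy h2⟩
  · rintro k hk x ⟨g, hg, h, hh, hx⟩
    refine ⟨k * g, H.mul_mem hk hg, k * h, H.mul_mem hk hh, ?_⟩
    rw [mul_smul, mul_smul, hIsm]
    exact hx
  · refine ⟨⋃ s ∈ insert (1 : G) S, I v0 (s • v0), ?_, ?_⟩
    · apply Set.Finite.biUnion (Finset.finite_toSet _)
      intro s _
      exact tree_interval_finite hT _ _
    · have key : ∀ h ∈ H, ∀ z ∈ I v0 (h • v0),
          ∃ g ∈ H, ∃ s ∈ insert (1 : G) S, g⁻¹ • z ∈ I v0 (s • v0) := by
        intro h hh
        rw [← hS] at hh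
        induction hh using Subgroup.closure_induction with
        | mem s hs =>
          intro z hz
          exact ⟨1, H.one_mem, s, Finset.mem_insert_of_mem hs, by simpa using hz⟩
        | one =>
          intro z hz
          exact ⟨1, H.one_mem, 1, Finset.mem_insert_self _ _, by simpa using hz⟩
        | mul a b ha hb iha ihb =>
          intro z hz
          rw [hS] at ha hb
          rcases hsplit _ _ z (a • v0) hz with h1 | h1
          · exact iha z h1
          · have h2 : a⁻¹ • z ∈ I v0 (b • v0) := by
              rw [← hIsm a]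
              simpa [mul_smul] using h1
            obtain ⟨g, hg, s, hs, h3⟩ := ihb _ h2
            refine ⟨a * g, H.mul_mem ha hg, s, hs, ?_⟩
            simpa [mul_smul] using h3
        | inv a ha iha =>
          intro z hz
          rw [hS] at ha
          have h2 : a • z ∈ I v0 (a • v0) := by
            rw [hIcomm, ← hIsm a⁻¹]
            simpa using hz
          obtain ⟨g, hg, s, hs, h3⟩ := iha _ h2
          refine ⟨a⁻¹ * g, H.mul_mem (H.inv_mem ha) hg, s, hs, ?_⟩
          simpa [mul_smul] using h3
      rintro x ⟨g, hg, h, hh, hx⟩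
      have h1 : g⁻¹ • x ∈ I v0 ((g⁻¹ * h) • v0) := by
        rw [← hIsm g]
        simpa [mul_smul] using hx
      obtain ⟨k, hk, s, hs, h2⟩ := key _ (H.mul_mem (H.inv_mem hg) hh) _ h1
      refine ⟨g * k, H.mul_mem hg hk, k⁻¹ • g⁻¹ • x, ?_, ?_⟩
      · simp only [Set.mem_iUnion]
        exact ⟨s, hs, h2⟩
      · simp [mul_smul]

/-- A group acting on a tree with a finite-index subgroup that acts freely on the vertices has
(LR). -/
theorem tree_hasLR {G : Type u} [Group G] [MulAction G V] (hT : T.IsTree)
    (hact : ∀ (g : G) (x y : V), T.Adj x y → T.Adj (g • x) (g • y))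
    (K : Subgroup G) (hfin : K.FiniteIndex)
    (hfree : ∀ k ∈ K, ∀ x : V, k • x = x → k = 1) : HasLR G := by
  intro H hH
  obtain ⟨W, h1, h2, h3, h4⟩ := tree_core hT hact H hH
  exact convex_core_virtualRetract T (tree_isMedian hT) hact K hfin
    (tree_special hT hact K hfree) H W h1 h2 h3 h4

end Pool.Agent.Lib.MP_836f52_al_H7
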