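import Pool.Agent.Lib.MP_836f52_al_H7.VF.Fg

set_option autoImplicit false
universe u

namespace Pool.Agent.Results.MP_836f52_al.VirtuallyFree

open Pool.Agent.Lib.MP_836f52_al_H7

/-- Let `G` be a finitely generated group with a free subgroup `K` of finite index.  Then `G` has
property (LR): every finitely generated subgroup of `G` is a virtual retract of `G`. -/
theorem result (G : Type u) [Group G] (hG : Group.FG G) (K : Subgroup G)
    (hfin : K.FiniteIndex) (hfree : IsFreeGroup K) : HasLR G := by
  have h1 : IsFreeGroup K.normalCore := VF.normalCore_free K hfree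
  have h2 : K.normalCore.FiniteIndex := inferInstance
  exact VF.vf_fg_hasLR K.normalCore h1 (Group.fg_def.1 hG)

end Pool.Agent.Results.MP_836f52_al.VirtuallyFree
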